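import Mathlib
import Pool.Agent.N822.OG.Stm

/-!
# OG/HX: the three patterns contain the graph `Hg`
-/

set_option autoImplicit false

namespace Pool.Agent.N707.OG

open SimpleGraph Pool.Agent.N822.OG

theorem ext_step {V : Type} (A : Fin 3 → Finset V) (hA : ∀ i, (A i).card = 9)
    (c : Fin 9 → Fin 3) (s : Finset (Fin 9)) (g0 : Fin 9 → V)
    (hinj : Set.InjOn g0 (s : Set (Fin 9))) (hmem : ∀ w ∈ s, g0 w ∈ A (c w)) :
    ∀ u : Finset (Fin 9), ∃ g : Fin 9 → V, Set.InjOn g ((s ∪ u : Finset (Fin 9)) : Set (Fin 9)) ∧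
      (∀ w ∈ s, g w = g0 w) ∧ ∀ w ∈ s ∪ u, g w ∈ A (c w) := by
  classical
  intro u
  induction u using Finset.induction_on with
  | empty => exact ⟨g0, by simpa using hinj, fun _ _ => rfl, by simpa using hmem⟩
  | insert w u hw ih =>
    obtain ⟨g, h1, h2, h3⟩ := ih
    by_cases hws : w ∈ s ∪ u
    · have e : s ∪ insert w u = s ∪ u := by
        rw [Finset.union_insert, Finset.insert_eq_of_mem hws]
      rw [e]
      exact ⟨g, h1, h2, h3⟩
    · have hcard : ((s ∪ u).image g).card < (A (c w)).card := by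
        rw [hA]
        refine lt_of_le_of_lt Finset.card_image_le ?_
        have : (s ∪ u) ⊂ Finset.univ := by
          rw [Finset.ssubset_univ_iff]
          intro h
          rw [h] at hws
          exact hws (Finset.mem_univ _)
        have := Finset.card_lt_card this
        simpa using this
      obtain ⟨y, hy, hy2⟩ := Finset.exists_mem_notMem_of_card_lt_card hcard
      have hne : ∀ x ∈ s ∪ u, Function.update g w y x = g x := by
        intro x hx
        rw [Function.update_of_ne]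
        rintro rfl
        exact hws hx
      refine ⟨Function.update g w y, ?_, ?_, ?_⟩
      · rw [Finset.union_insert, Finset.coe_insert]
        refine (Set.injOn_insert (by exact_mod_cast hws)).2 ⟨?_, ?_⟩
        · intro x hx x' hx' h
          rw [hne x (by exact_mod_cast hx), hne x' (by exact_mod_cast hx')] at h
          exact h1 hx hx' h
        · rintro ⟨x, hx, hx2⟩
          rw [hne x (by exact_mod_cast hx), Function.update_self] at hx2
          exact hy2 (Finset.mem_image.2 ⟨x, by exact_mod_cast hx, hx2⟩)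
      · intro x hx
        rw [hne x (Finset.mem_union_left _ hx)]
        exact h2 x hx
      · intro x hx
        rw [Finset.union_insert, Finset.mem_insert] at hx
        rcases hx with rfl | hx
        · rw [Function.update_self]; exact hy
        · rw [hne x hx]; exact h3 x hx

theorem build {V : Type} (G : SimpleGraph V) (A : Fin 3 → Finset V) (hA : ∀ i, (A i).card = 9)
    (hj : ∀ i j, i ≠ j → ∀ x ∈ A i, ∀ y ∈ A j, G.Adj x y)
    (c : Fin 9 → Fin 3) (s : Finset (Fin 9)) (g0 : Fin 9 → V)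
    (hinj : Set.InjOn g0 (s : Set (Fin 9))) (hmem : ∀ w ∈ s, g0 w ∈ A (c w))
    (hadj : ∀ x y, Hg.Adj x y → c x = c y → x ∈ s ∧ y ∈ s ∧ G.Adj (g0 x) (g0 y)) :
    Hg ⊑ G := by
  obtain ⟨g, h1, h2, h3⟩ := ext_step A hA c s g0 hinj hmem Finset.univ
  have hu : s ∪ Finset.univ = Finset.univ :=
    Finset.eq_univ_of_forall fun x => Finset.mem_union_right _ (Finset.mem_univ x)
  rw [hu] at h1 h3
  refine ⟨⟨⟨g, ?_⟩, ?_⟩⟩
  · intro x y hxy
    by_cases h : c x = c y
    · obtain ⟨k1, k2, k3⟩ := hadj x y hxy h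
      rw [h2 x k1, h2 y k2]
      exact k3
    · exact hj _ _ h _ (h3 x (Finset.mem_univ _)) _ (h3 y (Finset.mem_univ _))
  · intro x y hxy
    exact h1 (by simp) (by simp) hxy

theorem HX : S_HX := by
  classical
  intro V _ G hC
  obtain ⟨A, hA, hj, h⟩ := hC
  rcases h with ⟨i, a, ha, b, hb, c, hc, d, hd, hac, had, hbc, hbd, hab, hcd⟩ |
    ⟨i, a, ha, b, hb, c, hc, hac, hab, hbc⟩ | h
  · -- two disjoint edges
    have key : ∀ x y : Fin 9, Hg.Adj x y →
        (![0, 0, 2, 0, 0, 2, 1, 1, 2] : Fin 9 → Fin 3) x =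
        (![0, 0, 2, 0, 0, 2, 1, 1, 2] : Fin 9 → Fin 3) y →
        (x = 1 ∧ y = 3) ∨ (x = 3 ∧ y = 1) ∨ (x = 0 ∧ y = 4) ∨ (x = 4 ∧ y = 0) := by decide
    have n1 := hab.ne
    have n2 := hcd.ne
    refine build G A hA hj (fun w => i + (![0, 0, 2, 0, 0, 2, 1, 1, 2] : Fin 9 → Fin 3) w)
      {1, 3, 0, 4} (![c, a, a, b, d, a, a, a, a]) ?_ ?_ ?_
    · intro x hx y hy hxy
      simp only [Finset.coe_insert, Finset.coe_singleton, Set.mem_insert_iff,
        Set.mem_singleton_iff] at hx hy
      rcases hx with rfl | rfl | rfl | rfl <;> rcases hy with rfl | rfl | rfl | rfl <;>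
        simp_all [eq_comm]
    · intro w hw
      simp only [Finset.mem_insert, Finset.mem_singleton] at hw
      rcases hw with rfl | rfl | rfl | rfl <;> simpa
    · intro x y hxy hc'
      have h1 := key x y hxy (add_left_cancel hc')
      rcases h1 with ⟨rfl, rfl⟩ | ⟨rfl, rfl⟩ | ⟨rfl, rfl⟩ | ⟨rfl, rfl⟩
      · exact ⟨by decide, by decide, hab⟩
      · exact ⟨by decide, by decide, hab.symm⟩
      · exact ⟨by decide, by decide, hcd⟩
      · exact ⟨by decide, by decide, hcd.symm⟩
  · -- a path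
    have key : ∀ x y : Fin 9, Hg.Adj x y →
        (![0, 0, 1, 1, 1, 0, 2, 2, 0] : Fin 9 → Fin 3) x =
        (![0, 0, 1, 1, 1, 0, 2, 2, 0] : Fin 9 → Fin 3) y →
        (x = 5 ∧ y = 0) ∨ (x = 0 ∧ y = 5) ∨ (x = 5 ∧ y = 1) ∨ (x = 1 ∧ y = 5) := by decide
    have n1 := hab.ne
    have n2 := hbc.ne
    refine build G A hA hj (fun w => i + (![0, 0, 1, 1, 1, 0, 2, 2, 0] : Fin 9 → Fin 3) w)
      {5, 0, 1} (![a, c, a, a, a, b, a, a, a]) ?_ ?_ ?_
    · intro x hx y hy hxy
      simp only [Finset.coe_insert, Finset.coe_singleton, Set.mem_insert_iff,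
        Set.mem_singleton_iff] at hx hy
      rcases hx with rfl | rfl | rfl <;> rcases hy with rfl | rfl | rfl <;>
        simp_all [eq_comm]
    · intro w hw
      simp only [Finset.mem_insert, Finset.mem_singleton] at hw
      rcases hw with rfl | rfl | rfl <;> simpa
    · intro x y hxy hc'
      have h1 := key x y hxy (add_left_cancel hc')
      rcases h1 with ⟨rfl, rfl⟩ | ⟨rfl, rfl⟩ | ⟨rfl, rfl⟩ | ⟨rfl, rfl⟩
      · exact ⟨by decide, by decide, hab.symm⟩
      · exact ⟨by decide, by decide, hab⟩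
      · exact ⟨by decide, by decide, hbc⟩
      · exact ⟨by decide, by decide, hbc.symm⟩
  · -- an edge in every class
    choose a ha b hb hab using h
    have key : ∀ x y : Fin 9, Hg.Adj x y →
        (![0, 0, 1, 0, 1, 1, 2, 2, 2] : Fin 9 → Fin 3) x =
        (![0, 0, 1, 0, 1, 1, 2, 2, 2] : Fin 9 → Fin 3) y →
        (x = 1 ∧ y = 3) ∨ (x = 3 ∧ y = 1) ∨ (x = 4 ∧ y = 5) ∨ (x = 5 ∧ y = 4) ∨
        (x = 6 ∧ y = 8) ∨ (x = 8 ∧ y = 6) := by decide
    have n1 := fun i => (hab i).ne
    have n1' := fun i => (hab i).ne'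
    have hdis : ∀ i j, i ≠ j → ∀ x ∈ A i, ∀ y ∈ A j, x ≠ y := fun i j hij x hx y hy =>
      (hj i j hij x hx y hy).ne
    have m01 := hdis 0 1 (by decide)
    have m02 := hdis 0 2 (by decide)
    have m12 := hdis 1 2 (by decide)
    have m10 := hdis 1 0 (by decide)
    have m20 := hdis 2 0 (by decide)
    have m21 := hdis 2 1 (by decide)
    refine build G A hA hj (![0, 0, 1, 0, 1, 1, 2, 2, 2] : Fin 9 → Fin 3)
      {1, 3, 4, 5, 6, 8} (![a 0, a 0, a 0, b 0, a 1, b 1, a 2, a 2, b 2]) ?_ ?_ ?_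
    · intro x hx y hy hxy
      simp only [Finset.coe_insert, Finset.coe_singleton, Set.mem_insert_iff,
        Set.mem_singleton_iff] at hx hy
      rcases hx with rfl | rfl | rfl | rfl | rfl | rfl <;>
        rcases hy with rfl | rfl | rfl | rfl | rfl | rfl <;>
        first
        | rfl
        | exact absurd hxy (n1 _)
        | exact absurd hxy (n1' _)
        | exact absurd hxy (m01 _ (ha _) _ (ha _))
        | exact absurd hxy (m01 _ (ha _) _ (hb _))
        | exact absurd hxy (m01 _ (hb _) _ (ha _))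
        | exact absurd hxy (m01 _ (hb _) _ (hb _))
        | exact absurd hxy (m02 _ (ha _) _ (ha _))
        | exact absurd hxy (m02 _ (ha _) _ (hb _))
        | exact absurd hxy (m02 _ (hb _) _ (ha _))
        | exact absurd hxy (m02 _ (hb _) _ (hb _))
        | exact absurd hxy (m12 _ (ha _) _ (ha _))
        | exact absurd hxy (m12 _ (ha _) _ (hb _))
        | exact absurd hxy (m12 _ (hb _) _ (ha _))
        | exact absurd hxy (m12 _ (hb _) _ (hb _))
        | exact absurd hxy (m10 _ (ha _) _ (ha _))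
        | exact absurd hxy (m10 _ (ha _) _ (hb _))
        | exact absurd hxy (m10 _ (hb _) _ (ha _))
        | exact absurd hxy (m10 _ (hb _) _ (hb _))
        | exact absurd hxy (m20 _ (ha _) _ (ha _))
        | exact absurd hxy (m20 _ (ha _) _ (hb _))
        | exact absurd hxy (m20 _ (hb _) _ (ha _))
        | exact absurd hxy (m20 _ (hb _) _ (hb _))
        | exact absurd hxy (m21 _ (ha _) _ (ha _))
        | exact absurd hxy (m21 _ (ha _) _ (hb _))
        | exact absurd hxy (m21 _ (hb _) _ (ha _))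
        | exact absurd hxy (m21 _ (hb _) _ (hb _))
    · intro w hw
      simp only [Finset.mem_insert, Finset.mem_singleton] at hw
      rcases hw with rfl | rfl | rfl | rfl | rfl | rfl
      · exact ha 0
      · exact hb 0
      · exact ha 1
      · exact hb 1
      · exact ha 2
      · exact hb 2
    · intro x y hxy hc'
      have h1 := key x y hxy hc'
      rcases h1 with ⟨rfl, rfl⟩ | ⟨rfl, rfl⟩ | ⟨rfl, rfl⟩ | ⟨rfl, rfl⟩ | ⟨rfl, rfl⟩ | ⟨rfl, rfl⟩
      · exact ⟨by decide, by decide, hab 0⟩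
      · exact ⟨by decide, by decide, (hab 0).symm⟩
      · exact ⟨by decide, by decide, hab 1⟩
      · exact ⟨by decide, by decide, (hab 1).symm⟩
      · exact ⟨by decide, by decide, hab 2⟩
      · exact ⟨by decide, by decide, (hab 2).symm⟩

end Pool.Agent.N707.OG
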